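import Pool.Agent.Q68.SM.Sofic

/-!
# Infinite sofic groups acting on finite-dimensional spaces have sofic mean dimension at most zero

Let `G` be an infinite countable group with a sofic approximation sequence `σ`, acting continuously
on a compact metric space `X` of finite covering dimension. Then `mdim_Σ (X, G) ≤ 0`.

Idea of the proof. Let `F` be a finite subset of `G` and `W ⊂ {1, …, d}` a maximal set of points with
disjoint translates `σ(F) w`; it has at most `d / |F|` elements. Every other point `v` satisfies
`σ(s) v = σ(t) w` for some `s, t ∈ F` and `w ∈ W`, so an approximately equivariant map `φ` satisfies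
`φ(v) ≈ s⁻¹ t φ(w)` for all `v` outside of a small set, which depends on `φ`. With `M` colours on
`X`, such that every point is missed by at most `n = dim X` of them (Ostrand, Kolmogorov), and one
more piece for the `φ` with `φ(v)` close to `s⁻¹ t φ(w)` (with a threshold which depends on the
colour), the space of the maps is covered by the products of the pieces of one colour as soon as
`M > n |W| + (n + 1) #{bad v}`. So `Widim` of this space is at most `n d / |F| + o(d)`.
-/

set_option autoImplicit false

namespace Pool.Agent.Results.MP_8bee83_an.NonPositive

open Pool.Agent.Q68.SM

/-- For every infinite countable group `G`, every sofic approximation sequence `σ` for `G` and every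
continuous action of `G` on a compact metric space `X` of finite covering dimension,
`mdim_σ (X, G) ≤ 0`. -/
theorem result (G : Type) [Group G] [Countable G] [Infinite G] (d : ℕ → ℕ)
    (σ : ∀ i, G → Equiv.Perm (Fin (d i))) (hσ : IsSoficApprox σ)
    (X : Type) [MetricSpace X] [CompactSpace X] [MulAction G X] [ContinuousConstSMul G X]
    (n : ℕ) (hX : CovDimLE X n) : mdim X σ ≤ 0 :=
  mdim_le_zero hσ hX

end Pool.Agent.Results.MP_8bee83_an.NonPositive
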